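import Pool.Agent.ABC3.Stmts

/-!
# Row PER: coefficients of products of linear forms are permanents
-/

set_option autoImplicit false

namespace Pool.Agent.ABC3.H51

open Matrix

variable {K : Type} [Field K] {ι : Type} [Fintype ι] [DecidableEq ι]

/-- `f` enumerates the support of `s` -/
def Gd {m : ℕ} (f : Fin m → ι) (s : St ι) : Prop :=
  Function.Injective f ∧ ∀ c, s c = true ↔ ∃ j, f j = c

theorem xc_mulVec (c : ι) (x : St ι → K) (s : St ι) :
    (xc K c).mulVec x s = if s c = true then x (Function.update s c false) else 0 := by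
  unfold Matrix.mulVec dotProduct xc
  by_cases hs : s c = true
  · rw [if_pos hs, Finset.sum_eq_single (Function.update s c false)]
    · have h1 : Function.update s c false c = false := by simp
      have h2 : s = Function.update (Function.update s c false) c true := by
        rw [Function.update_idem, ← hs, Function.update_eq_self]
      beta_reduce
      rw [if_pos ⟨h1, h2⟩, one_mul]
    · intro j _ hj
      beta_reduce
      rw [if_neg, zero_mul]
      rintro ⟨h1, h2⟩
      apply hj
      rw [h2, Function.update_idem, ← h1, Function.update_eq_self]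
    · intro h
      exact absurd (Finset.mem_univ _) h
  · rw [if_neg hs]
    apply Finset.sum_eq_zero
    intro j _
    beta_reduce
    rw [if_neg, zero_mul]
    rintro ⟨h1, h2⟩
    apply hs
    rw [h2]
    simp

theorem mu_mulVec (w : ι → K) (x : St ι → K) (s : St ι) :
    (mu w).mulVec x s = ∑ c, w c * (if s c = true then x (Function.update s c false) else 0) := by
  rw [mu_def, Matrix.sum_mulVec, Finset.sum_apply]
  refine Finset.sum_congr rfl fun c _ => ?_
  rw [Matrix.smul_mulVec, Pi.smul_apply, smul_eq_mul, xc_mulVec]

theorem gd_cons {m : ℕ} (c : ι) (f : Fin m → ι) (s : St ι) :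
    Gd (Fin.cons c f : Fin (m + 1) → ι) s ↔ s c = true ∧ Gd f (Function.update s c false) := by
  unfold Gd
  rw [Fin.cons_injective_iff]
  have key : ∀ c', (∃ j : Fin (m + 1), (Fin.cons c f : Fin (m + 1) → ι) j = c') ↔
      (c = c' ∨ ∃ j, f j = c') := by
    intro c'
    rw [Fin.exists_fin_succ]
    simp
  constructor
  · rintro ⟨⟨h1, h2⟩, h3⟩
    have hc : s c = true := (h3 c).2 ((key c).2 (Or.inl rfl))
    refine ⟨hc, h2, fun c' => ?_⟩
    by_cases hcc : c' = c
    · subst hcc
      constructor
      · intro h
        simp at h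
      · rintro ⟨j, hj⟩
        exact absurd ⟨j, hj⟩ h1
    · rw [Function.update_of_ne hcc, h3, key]
      constructor
      · rintro (h | h)
        · exact absurd h.symm hcc
        · exact h
      · exact Or.inr
  · rintro ⟨hc, h2, h3⟩
    have hn : c ∉ Set.range f := by
      rintro ⟨j, hj⟩
      have := (h3 c).2 ⟨j, hj⟩
      simp at this
    refine ⟨⟨hn, h2⟩, fun c' => ?_⟩
    rw [key]
    by_cases hcc : c' = c
    · subst hcc
      simp [hc]
    · have := h3 c'
      rw [Function.update_of_ne hcc] at this
      rw [this]
      constructor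
      · exact Or.inr
      · rintro (h | h)
        · exact absurd h.symm hcc
        · exact h

open Classical in
theorem prod_mulVec {R : Type} (w : R → ι → K) (l : List R) (s : St ι) :
    ((l.map (fun r => mu (w r))).prod).mulVec (Pi.single (fun _ => false) 1) s =
      ∑ f : Fin l.length → ι, if Gd f s then ∏ j, w (l.get j) (f j) else 0 := by
  induction l generalizing s with
  | nil =>
    have h1 : ∀ f : Fin ([] : List R).length → ι, Gd f s ↔ s = fun _ => false := by
      intro f
      unfold Gd
      constructor
      · rintro ⟨-, h⟩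
        funext c
        by_contra hc
        have hc' : s c = true := by simpa using hc
        obtain ⟨j, -⟩ := (h c).1 hc'
        exact j.elim0
      · rintro rfl
        refine ⟨fun i => i.elim0, fun c => ?_⟩
        constructor
        · intro h
          simp at h
        · rintro ⟨j, -⟩
          exact j.elim0
    have h2 : ∀ f : Fin ([] : List R).length → ι, ∏ j, w (([] : List R).get j) (f j) = 1 :=
      fun f => Fin.prod_univ_zero _
    rw [List.map_nil, List.prod_nil, Matrix.one_mulVec]
    have h3 : ∀ f : Fin ([] : List R).length → ι,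
        (if Gd f s then ∏ j, w (([] : List R).get j) (f j) else 0) =
          if s = (fun _ => false) then (1 : K) else 0 := by
      intro f
      rw [h2]
      simp only [h1]
    rw [Finset.sum_congr rfl fun f _ => h3 f, Finset.sum_const]
    have h4 : (Finset.univ : Finset (Fin ([] : List R).length → ι)).card = 1 := by
      rw [Finset.card_univ]
      simp
    rw [h4, one_smul, Pi.single_apply]
  | cons a l ih =>
    rw [List.map_cons, List.prod_cons, ← Matrix.mulVec_mulVec, mu_mulVec]
    have hR : (∑ f : Fin (a :: l).length → ι, if Gd f s then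
        ∏ j, w ((a :: l).get j) (f j) else 0) =
        ∑ c : ι, ∑ f : Fin l.length → ι, if Gd (Fin.cons c f : Fin (l.length + 1) → ι) s then
          w a c * ∏ j, w (l.get j) (f j) else 0 := by
      rw [← Fintype.sum_prod_type']
      symm
      refine Fintype.sum_equiv (Fin.consEquiv (fun _ : Fin (l.length + 1) => ι)) _ _ ?_
      rintro ⟨c, f⟩
      have e1 : (Fin.consEquiv (fun _ : Fin (l.length + 1) => ι)) (c, f) =
          (Fin.cons c f : Fin (l.length + 1) → ι) := rfl
      rw [e1]
      have e2 : ∏ j : Fin (a :: l).length, w ((a :: l).get j)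
          ((Fin.cons c f : Fin (l.length + 1) → ι) j) = w a c * ∏ j, w (l.get j) (f j) := by
        exact Fin.prod_univ_succ (fun j : Fin (l.length + 1) => w ((a :: l).get j)
          ((Fin.cons c f : Fin (l.length + 1) → ι) j))
      rw [e2]
    rw [hR]
    refine Finset.sum_congr rfl fun c _ => ?_
    by_cases hs : s c = true
    · rw [if_pos hs, ih, Finset.mul_sum]
      refine Finset.sum_congr rfl fun f _ => ?_
      have hi : Gd (Fin.cons c f : Fin (l.length + 1) → ι) s ↔ Gd f (Function.update s c false) := by
        rw [gd_cons]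
        exact ⟨fun h => h.2, fun h => ⟨hs, h⟩⟩
      by_cases hg : Gd f (Function.update s c false)
      · rw [if_pos hg, if_pos (hi.2 hg)]
      · rw [if_neg hg, if_neg (fun h => hg (hi.1 h)), mul_zero]
    · rw [if_neg hs, mul_zero]
      symm
      apply Finset.sum_eq_zero
      intro f _
      rw [if_neg]
      intro h
      exact hs ((gd_cons c f s).1 h).1

open Classical in
theorem perm_eq {R : Type} [Fintype R] [DecidableEq R] {m : ℕ} (e : Fin m ≃ R) (w : R → ι → K)
    (s : St ι) (f0 : Fin m → ι) (h0 : Gd f0 s) :
    Matrix.permanent (Matrix.of (fun (r c : R) => w r (f0 (e.symm c)))) =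
      ∑ g : Fin m → ι, if Gd g s then ∏ j, w (e j) (g j) else 0 := by
  unfold Matrix.permanent
  rw [← Finset.sum_filter]
  refine Finset.sum_bij (fun (σ : Equiv.Perm R) _ => fun j => f0 (e.symm (σ.symm (e j))))
    ?_ ?_ ?_ ?_
  · intro σ _
    rw [Finset.mem_filter]
    refine ⟨Finset.mem_univ _, ?_, fun c => ?_⟩
    · intro i j hij
      have := h0.1 hij
      simpa using this
    · rw [h0.2 c]
      constructor
      · rintro ⟨j, hj⟩
        refine ⟨e.symm (σ (e j)), ?_⟩
        simp [hj]
      · rintro ⟨j, hj⟩
        exact ⟨_, hj⟩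
  · intro σ _ τ _ h
    have h1 : ∀ j, σ.symm (e j) = τ.symm (e j) := by
      intro j
      have := h0.1 (congrFun h j)
      simpa using this
    have h2 : σ.symm = τ.symm := by
      ext r
      have := h1 (e.symm r)
      simpa using this
    have h3 := congrArg Equiv.symm h2
    simpa using h3
  · intro g hg
    rw [Finset.mem_filter] at hg
    obtain ⟨-, hg1, hg2⟩ := hg
    have h1 : ∀ j, ∃ i, f0 i = g j := fun j => (h0.2 (g j)).1 ((hg2 (g j)).2 ⟨j, rfl⟩)
    choose τ hτ using h1
    have hinj : Function.Injective τ := by
      intro i j hij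
      apply hg1
      rw [← hτ i, ← hτ j, hij]
    have hbij : Function.Bijective τ := Finite.injective_iff_bijective.1 hinj
    let t : Fin m ≃ Fin m := Equiv.ofBijective τ hbij
    refine ⟨((e.symm.trans t).trans e).symm, Finset.mem_univ _, ?_⟩
    funext j
    simp only [Equiv.symm_symm, Equiv.trans_apply, Equiv.symm_apply_apply]
    exact hτ j
  · intro σ _
    rw [← Equiv.prod_comp (e.trans σ.symm)]
    refine Finset.prod_congr rfl fun j _ => ?_
    simp

theorem pairs_prod {n : ℕ} (Y : Matrix (Fin n) ι K) (t : List (Fin n)) :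
    ((t.flatMap (fun i => [((0 : Fin 2), i), ((1 : Fin 2), i)])).map
      (fun r : Fin 2 × Fin n => mu (Y r.2))).prod = (t.map (fun i => mu (Y i) * mu (Y i))).prod := by
  induction t with
  | nil => simp
  | cons a t ih =>
    rw [List.flatMap_cons, List.map_append, List.prod_append, ih]
    simp

theorem per : PERStmt := by
  intro K _ n ι _ _ Y h
  classical
  let l : List (Fin 2 × Fin n) :=
    (List.finRange n).flatMap (fun i => [((0 : Fin 2), i), ((1 : Fin 2), i)])
  have hl : (List.ofFn (fun i => mu (Y i) * mu (Y i))).prod =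
      (l.map (fun r : Fin 2 × Fin n => mu (Y r.2))).prod := by
    rw [List.ofFn_eq_map]
    exact (pairs_prod Y _).symm
  have hmem : ∀ r : Fin 2 × Fin n, r ∈ l := by
    rintro ⟨a, i⟩
    refine List.mem_flatMap.2 ⟨i, List.mem_finRange i, ?_⟩
    fin_cases a <;> simp
  have hnd : l.Nodup := by
    refine List.nodup_flatMap.2 ⟨fun i _ => by simp, ?_⟩
    refine (List.nodup_finRange n).imp ?_
    intro i j hij
    simp [Function.onFun, List.disjoint_left, hij]
  let e : Fin l.length ≃ Fin 2 × Fin n := hnd.getEquivOfForallMemList l hmem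
  have he : ∀ j, e j = l.get j := fun j => rfl
  rw [hl] at h
  obtain ⟨s, hs⟩ := Function.ne_iff.1 h
  rw [prod_mulVec (fun r : Fin 2 × Fin n => Y r.2), Pi.zero_apply] at hs
  obtain ⟨f0, -, hf0⟩ := Finset.exists_ne_zero_of_sum_ne_zero hs
  have hg : Gd f0 s := by
    by_contra hc
    exact hf0 (if_neg hc)
  refine ⟨fun c => f0 (e.symm c), ?_, ?_⟩
  · intro a b hab
    have := hg.1 hab
    simpa using this
  · rw [perm_eq e (fun r : Fin 2 × Fin n => Y r.2) s f0 hg]
    exact hs

end Pool.Agent.ABC3.H51
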