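import Pool.Agent.ABC3.Stmts

/-!
# Row GEN: translation to matrices and subspaces
-/

set_option autoImplicit false

namespace Pool.Agent.ABC3.H51

open Matrix Module

theorem gen (hA : ATTStmt) (hS : SQRStmt) (hP : PERStmt) : GENStmt := by
  intro K _ _ n ι _ _ Y h
  classical
  let ι' : Type := {c : ι // (fun r => Y r c) ≠ 0}
  let Y' : Matrix (Fin n) ι' K := fun r c => Y r c.1
  let ev : ι' → ((Fin n → K) →ₗ[K] K) := fun c => dotProductEquiv K (Fin n) (fun r => Y r c.1)
  have hev : ∀ (c : ι') (q : Fin n → K), ev c q = (fun r => Y r c.1) ⬝ᵥ q := fun c q => rfl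
  have hb : ∀ (c : ι') (i : Fin n), ev c (Pi.basisFun K (Fin n) i) = Y i c.1 := by
    intro c i
    rw [hev, Pi.basisFun_apply, dotProduct_single, mul_one]
  have hne : ∀ c, ev c ≠ 0 := by
    intro c hc
    apply c.2
    funext r
    rw [← hb c r, hc]
    rfl
  have hcond : ∀ P : Submodule K (Fin n → K), P ≠ ⊥ →
      4 * finrank K P ≤ Nat.card {c // ¬ P ≤ LinearMap.ker (ev c)} + 2 := by
    intro P hP0
    let U : Submodule K (Fin n → K) :=
      P.dualAnnihilator.comap (dotProductEquiv K (Fin n)).toLinearMap
    have hU : ∀ x, x ∈ U ↔ ∀ p ∈ P, x ⬝ᵥ p = 0 := by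
      intro x
      change (dotProductEquiv K (Fin n)) x ∈ P.dualAnnihilator ↔ _
      rw [Submodule.mem_dualAnnihilator]
      rfl
    have hdim : finrank K P + finrank K U = n := by
      have h1 := Subspace.finrank_add_finrank_dualAnnihilator_eq P
      have h2 : finrank K U = finrank K P.dualAnnihilator := by
        change finrank K (P.dualAnnihilator.comap (dotProductEquiv K (Fin n)).toLinearMap) = _
        rw [Submodule.comap_equiv_eq_map_symm]
        exact LinearEquiv.finrank_map_eq _ _
      rw [h2, h1, finrank_fin_fun]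
    have hP1 : 0 < finrank K P := by
      rw [Nat.pos_iff_ne_zero]
      intro h0
      exact hP0 (Submodule.finrank_eq_zero.1 h0)
    have hUt : U ≠ ⊤ := by
      intro hc
      rw [hc, finrank_top, finrank_fin_fun] at hdim
      omega
    have h1 := h U hUt
    have h2 : Nat.card {c // (fun r => Y r c) ∉ U} ≤ Nat.card {c // ¬ P ≤ LinearMap.ker (ev c)} := by
      refine Nat.card_le_card_of_injective (fun c => ⟨⟨c.1, ?_⟩, ?_⟩) ?_
      · intro h0
        apply c.2
        rw [h0]
        exact zero_mem _
      · intro hle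
        apply c.2
        rw [hU]
        intro p hp
        exact LinearMap.mem_ker.1 (hle hp)
      · intro a b hab
        apply Subtype.ext
        exact congrArg (fun z => z.1.1) hab
    omega
  obtain ⟨l, hl, hl2⟩ := hA K (Fin n → K) ι' ev hne hcond
  rw [finrank_fin_fun] at hl
  have h3 : ((List.ofFn (fun i => mu (Y' i) * mu (Y' i))).prod).mulVec
      (Pi.single (fun _ => false) 1) ≠ 0 := by
    intro h0
    apply hl2
    refine hS K (Fin n → K) (St ι') (TSys ev) n (Pi.basisFun K (Fin n)) _ ?_ l hl
    have h4 : (fun i => (TSys ev).act (Pi.basisFun K (Fin n) i) *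
        (TSys ev).act (Pi.basisFun K (Fin n) i)) = fun i => mu (Y' i) * mu (Y' i) := by
      funext i
      have h5 : (TSys ev).act (Pi.basisFun K (Fin n) i) = mu (Y' i) := by
        rw [TSys_act]
        congr 1
        funext c
        exact hb c i
      rw [h5]
    rw [h4]
    exact h0
  obtain ⟨f, hf, hp⟩ := hP K n ι' Y' h3
  exact ⟨fun r => (f r).1, fun a b hab => hf (Subtype.ext hab), hp⟩

end Pool.Agent.ABC3.H51
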